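import Pool.Agent.Lib.MP_afdd4d_co.K10.RS.Sys
import Pool.Agent.Lib.MP_afdd4d_co.K8.Inst
import Pool.Agent.Lib.MP_afdd4d_co.K10.GD.Ok
import Pool.Agent.Lib.MP_afdd4d_co.K10.BT.Tb
import Pool.Agent.Lib.MP_afdd4d_co.K10.TH.Dat
import Pool.Agent.Lib.MP_afdd4d_co.K10.GD.G00
import Pool.Agent.Lib.MP_afdd4d_co.K10.GD.G01
import Pool.Agent.Lib.MP_afdd4d_co.K10.GD.G02
import Pool.Agent.Lib.MP_afdd4d_co.K10.GD.G03
import Pool.Agent.Lib.MP_afdd4d_co.K10.GD.G04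
import Pool.Agent.Lib.MP_afdd4d_co.K10.GD.G05
import Pool.Agent.Lib.MP_afdd4d_co.K10.GD.G06
import Pool.Agent.Lib.MP_afdd4d_co.K10.GD.G07
import Pool.Agent.Lib.MP_afdd4d_co.K10.GD.G08
import Pool.Agent.Lib.MP_afdd4d_co.K10.GD.G09
import Pool.Agent.Lib.MP_afdd4d_co.K10.GD.G10
import Pool.Agent.Lib.MP_afdd4d_co.K10.GD.G11
import Pool.Agent.Lib.MP_afdd4d_co.K10.GD.G12
import Pool.Agent.Lib.MP_afdd4d_co.K10.GD.G13
import Pool.Agent.Lib.MP_afdd4d_co.K10.GD.G14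
import Pool.Agent.Lib.MP_afdd4d_co.K10.GD.G15
import Pool.Agent.Lib.MP_afdd4d_co.K10.GD.G16
import Pool.Agent.Lib.MP_afdd4d_co.K10.GD.G17
import Pool.Agent.Lib.MP_afdd4d_co.K10.GD.G18
import Pool.Agent.Lib.MP_afdd4d_co.K10.GD.G19
import Pool.Agent.Lib.MP_afdd4d_co.K10.GD.G20
import Pool.Agent.Lib.MP_afdd4d_co.K10.GD.G21
import Pool.Agent.Lib.MP_afdd4d_co.K10.GD.G22
import Pool.Agent.Lib.MP_afdd4d_co.K10.GD.G23
import Pool.Agent.Lib.MP_afdd4d_co.K10.GD.G24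
import Pool.Agent.Lib.MP_afdd4d_co.K10.GD.G25
import Pool.Agent.Lib.MP_afdd4d_co.K10.GD.G26
import Pool.Agent.Lib.MP_afdd4d_co.K10.GD.G27
import Pool.Agent.Lib.MP_afdd4d_co.K10.GD.G28
import Pool.Agent.Lib.MP_afdd4d_co.K10.GD.G29
import Pool.Agent.Lib.MP_afdd4d_co.K10.GD.G30
import Pool.Agent.Lib.MP_afdd4d_co.K10.GD.G31
import Pool.Agent.Lib.MP_afdd4d_co.K10.GD.G32
import Pool.Agent.Lib.MP_afdd4d_co.K10.GD.G33
import Pool.Agent.Lib.MP_afdd4d_co.K10.GD.G34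
import Pool.Agent.Lib.MP_afdd4d_co.K10.GD.G35
import Pool.Agent.Lib.MP_afdd4d_co.K10.GD.G36
import Pool.Agent.Lib.MP_afdd4d_co.K10.GD.G37
import Pool.Agent.Lib.MP_afdd4d_co.K10.GD.G38
import Pool.Agent.Lib.MP_afdd4d_co.K10.GD.G39
import Pool.Agent.Lib.MP_afdd4d_co.K10.GD.G40
import Pool.Agent.Lib.MP_afdd4d_co.K10.GD.G41
import Pool.Agent.Lib.MP_afdd4d_co.K10.GD.G42
import Pool.Agent.Lib.MP_afdd4d_co.K10.GD.G43
import Pool.Agent.Lib.MP_afdd4d_co.K10.GD.G44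
import Pool.Agent.Lib.MP_afdd4d_co.K10.GD.G45
import Pool.Agent.Lib.MP_afdd4d_co.K10.GD.G46
import Pool.Agent.Lib.MP_afdd4d_co.K10.GD.G47
import Pool.Agent.Lib.MP_afdd4d_co.K10.GD.G48
import Pool.Agent.Lib.MP_afdd4d_co.K10.GD.G49
import Pool.Agent.Lib.MP_afdd4d_co.K10.GD.G50
import Pool.Agent.Lib.MP_afdd4d_co.K10.GD.G51
import Pool.Agent.Lib.MP_afdd4d_co.K10.GD.G52
import Pool.Agent.Lib.MP_afdd4d_co.K10.GD.G53

/-!
# The tables of the pair system
-/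

namespace Pool.Agent.Lib.MP_afdd4d_co.K10.RS

open K8 K8.Gm K8.Gm.GT

/-- The terms of the cosets. -/
def gL : List GR := [GD.g00, GD.g01, GD.g02, GD.g03, GD.g04, GD.g05, GD.g06, GD.g07, GD.g08,
  GD.g09, GD.g10, GD.g11, GD.g12, GD.g13, GD.g14, GD.g15, GD.g16, GD.g17,
  GD.g18, GD.g19, GD.g20, GD.g21, GD.g22, GD.g23, GD.g24, GD.g25, GD.g26,
  GD.g27, GD.g28, GD.g29, GD.g30, GD.g31, GD.g32, GD.g33, GD.g34, GD.g35,
  GD.g36, GD.g37, GD.g38, GD.g39, GD.g40, GD.g41, GD.g42, GD.g43, GD.g44,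
  GD.g45, GD.g46, GD.g47, GD.g48, GD.g49, GD.g50, GD.g51, GD.g52, GD.g53]

theorem gL_ok : ∀ G ∈ gL, GT.okG GD.T G = true := by
  intro G hG
  unfold gL at hG
  simp only [List.mem_cons, List.not_mem_nil, or_false] at hG
  rcases hG with rfl | rfl | rfl | rfl | rfl | rfl | rfl | rfl | rfl | rfl | rfl | rfl | rfl | rfl | rfl | rfl | rfl | rfl |
    rfl | rfl | rfl | rfl | rfl | rfl | rfl | rfl | rfl | rfl | rfl | rfl | rfl | rfl | rfl | rfl | rfl | rfl |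
    rfl | rfl | rfl | rfl | rfl | rfl | rfl | rfl | rfl | rfl | rfl | rfl | rfl | rfl | rfl | rfl | rfl | rfl
  · exact GD.okg00
  · exact GD.okg01
  · exact GD.okg02
  · exact GD.okg03
  · exact GD.okg04
  · exact GD.okg05
  · exact GD.okg06
  · exact GD.okg07
  · exact GD.okg08
  · exact GD.okg09
  · exact GD.okg10
  · exact GD.okg11
  · exact GD.okg12
  · exact GD.okg13
  · exact GD.okg14
  · exact GD.okg15
  · exact GD.okg16
  · exact GD.okg17
  · exact GD.okg18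
  · exact GD.okg19
  · exact GD.okg20
  · exact GD.okg21
  · exact GD.okg22
  · exact GD.okg23
  · exact GD.okg24
  · exact GD.okg25
  · exact GD.okg26
  · exact GD.okg27
  · exact GD.okg28
  · exact GD.okg29
  · exact GD.okg30
  · exact GD.okg31
  · exact GD.okg32
  · exact GD.okg33
  · exact GD.okg34
  · exact GD.okg35
  · exact GD.okg36
  · exact GD.okg37
  · exact GD.okg38
  · exact GD.okg39
  · exact GD.okg40
  · exact GD.okg41
  · exact GD.okg42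
  · exact GD.okg43
  · exact GD.okg44
  · exact GD.okg45
  · exact GD.okg46
  · exact GD.okg47
  · exact GD.okg48
  · exact GD.okg49
  · exact GD.okg50
  · exact GD.okg51
  · exact GD.okg52
  · exact GD.okg53

/-- The tables of the function of pairs. -/
noncomputable def P : Jv.PsiTab S0 64 where
  OP := 70368744177664
  tP := PS.D.tP
  fP := PS.D.fP
  hP := fun J hJ => PT.tP_ar PS.ok J hJ
  hP2 := fun J hJ b => PT.fP_le PS.ok J hJ b
  sP := fun n H E' p J hJ hev hd => PT.psi_eq PS.ok H E' p J hJ hev hd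

/-- The tables of the function of even 4-graphs. -/
noncomputable def B : Jv.BTab S0 64 where
  OB := 35184372088832
  MB := 51511186952114
  tB := BT.tB
  fB := BT.fB
  hB := BT.tB_ar
  hB2 := fun t _ b => BT.fB_le t b
  sB := fun n E' s h => BT.B_eq E' s h

theorem hsz0 : 2 * (21 * (2 * GD.T.D.B + GD.T.OO)) + 14 * (2 * P.OP) + B.MB < 2 ^ (GD.T.w - 1) := by
  show 2 * (21 * (2 * 2 ^ 43 + 4123168604160)) + 14 * (2 * 70368744177664) + 51511186952114 < 2 ^ (64 - 1)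
  norm_num

/-- The tables without the function of the links. -/
noncomputable def D0 : Jv.Tabs S0 := Jv.mkTabs S0 GD.T GD.ok gL GD.g00 gL_ok GD.okg00
  (fun _ _ => rfl) rfl P B (by decide) hsz0

/-- The tables of the function of the links. -/
noncomputable def F : L9.ThTab T D0.w D0.reps := TH.D.F D0.reps

theorem hsz : 2 * (D0.MA + F.MF) + 14 * (2 * D0.OP) + D0.MB < 2 ^ (D0.w - 1) := by
  show 2 * (21 * (2 * 2 ^ 43 + 4123168604160) + 7 * 9361947559590) + 14 * (2 * 70368744177664) + 51511186952114 < 2 ^ (64 - 1)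
  norm_num

/-- The tables. -/
noncomputable def D : Jv.Tabs S := F.tabs D0 hsz

/-- The bound for the lanes. -/
def K : ℕ := 1542498445295704

theorem D_w : D.w = 64 := rfl

theorem rep_mem (i : ℕ) (hi : i < 54) {c : ℕ} (h : D.reps.getD i 0 = c) : c ∈ D.reps := by
  have h1 : i < D.reps.length := hi
  rw [← h, List.getD_eq_getElem _ _ h1]
  exact List.getElem_mem h1

theorem D_OP : D.OP = 70368744177664 := rfl

theorem D_OB : D.OB = 35184372088832 := rfl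

theorem T_B : GD.T.D.B = 8796093022208 := rfl

theorem T_OO : GD.T.OO = 4123168604160 := rfl

theorem T_M : T.M = ((9361947559590 + 2404232452980 : ℕ) : ℤ) := rfl

theorem D_C0 : D.C0 = 42 * ((GD.T.D.B : ℤ) + GD.T.OO) + 2 * ((7 * 2404232452980 : ℕ) : ℤ) - 84 * T.M := rfl

theorem S_Lo : S.Lo = 27058293964800 - 42 * T.M := rfl

theorem K_lt : K < 2 ^ (D.w - 1) := by
  rw [D_w]
  decide

theorem K_eq : (K : ℤ) = D.C0 - 2 * S.Lo + 14 * D.OP + D.OB := by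
  rw [D_C0, S_Lo, D_OP, D_OB, T_B, T_OO, T_M]
  decide

end Pool.Agent.Lib.MP_afdd4d_co.K10.RS
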