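import Pool.Agent.Lib.MP_afdd4d_co.K10.DK.Fin
import Pool.Agent.Lib.MP_afdd4d_co.K10.PS.Fin
import Pool.Agent.Lib.MP_afdd4d_co.K10.BT.V
import Pool.Agent.Lib.MP_afdd4d_co.K8.PsiDef
import Pool.Agent.Lib.MP_afdd4d_co.K10.TH.V

/-!
# The pair system
-/

namespace Pool.Agent.Lib.MP_afdd4d_co.K10.RS

open K8

/-- The pair system without the function of the links. -/
noncomputable def S0 : PsiSys where
  a := 2473901162496
  Lo := 27058293964800
  ha := by norm_num
  k5 := DK.kernK
  k5s := fun H τ s u w => DK.kernK_perm H τ s u w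
  ψ := fun H E' p => PS.D.psi H E' p
  ψs := fun H E' τ p => PT.psi_perm PS.ok H E' τ p
  B := fun E' s => K8.BV E' BT.v s
  Bs := fun E' τ s => BV_perm E' BT.v τ s
  CB := 2 ^ 64
  hCB := fun E' s => BT.hCB E' s

/-- The function of the links. -/
noncomputable def T : L9.ThF := TH.D0.T

/-- The pair system. -/
noncomputable def S : PsiSys := T.sys S0

theorem S0_lam : 175 * S0.a ≤ 16 * S0.Lo := by
  show 175 * (2473901162496 : ℤ) ≤ 16 * 27058293964800
  norm_num

theorem S0_B {n : ℕ} (E : Finset (Finset (Fin n))) (s : Fin 7 → Fin n) :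
    S0.B E s = K8.BV E BT.v s := by
  simp only [S0]

end Pool.Agent.Lib.MP_afdd4d_co.K10.RS
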